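import Pool.Agent.helper89.HR.IT0
import Pool.Agent.helper78.HR.KL

/-!
HR project (MP_58257a_co, S08871), row IT.
-/

set_option autoImplicit false

namespace Pool.Agent.helper78.HR

open Finset

/-- row IT (step 4; uses key, dual, round). -/
theorem iter {ι : Type*} [Fintype ι] (x y : ι → ℤ) (hx : Function.Injective x)
    (hy : Function.Injective y) (K : ℕ) (hK : 1 ≤ K) (M : ℕ) (hM : M ≤ Fintype.card ι)
    (V : Finset (ℤ × ℤ)) (hV : NuLE x y K V M) :
    ∃ V' : Finset (ℤ × ℤ),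
      (V'.card : ℝ) ≤ 8 * (8 * (K + 1) ^ 3 + 1) * M * (Real.log ((Fintype.card ι : ℝ) / M) + 3) ∧
      Fam x y K (V ∪ V') = ∅ :=
  hrIT_of_key x y hx hy K (fun V N hN k w hw => key x y hx hy K hK V N hN k w hw) M hM V hV

end Pool.Agent.helper78.HR
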