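import Pool.Agent.helper89.HR.ITcore
import Pool.Agent.helper82.HR.DU
import Pool.Agent.helper77.HR.RD

/-!
HR project (MP_58257a_co, S08871), row IT, with the key lemma as a hypothesis.
-/

set_option autoImplicit false

namespace Pool.Agent.helper78.HR

open Finset

/-- row IT from the key lemma. -/
theorem hrIT_of_key {ι : Type*} [Fintype ι] (x y : ι → ℤ) (hx : Function.Injective x)
    (hy : Function.Injective y) (K : ℕ)
    (key : ∀ (V : Finset (ℤ × ℤ)) (N : ℕ) (_ : NuLE x y K V N) (k : ℕ) (w : Fm ι → ℕ)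
      (_ : ∀ z ∈ Gr x y, ∑ f ∈ (Fam x y K V).filter (fun f => In x y f z), w f ≤ k),
      ∑ f ∈ Fam x y K V, w f ≤ k * ((8 * (K + 1) ^ 3 + 1) * N))
    (M : ℕ) (hM : M ≤ Fintype.card ι) (V : Finset (ℤ × ℤ)) (hV : NuLE x y K V M) :
    ∃ V' : Finset (ℤ × ℤ),
      (V'.card : ℝ) ≤ 8 * (8 * (K + 1) ^ 3 + 1) * M * (Real.log ((Fintype.card ι : ℝ) / M) + 3) ∧
      Fam x y K (V ∪ V') = ∅ := by
  classical
  have hD : (1 : ℝ) ≤ 8 * ((K : ℝ) + 1) ^ 3 + 1 := by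
    have : (0 : ℝ) ≤ 8 * ((K : ℝ) + 1) ^ 3 := by positivity
    linarith
  refine hrIT_core x y K (8 * ((K : ℝ) + 1) ^ 3 + 1) hD ?_ M hM V hV
  intro M V hM1 hMn hV
  obtain ⟨c, hc0, hc1, hc2⟩ := dual (Fam x y K V) (Gr x y) (In x y) ((8 * (K + 1) ^ 3 + 1) * M)
    (by
      intro f hf
      refine ⟨(x f.1, y f.1), ?_, ((mem_Fam x y).1 hf).1.1⟩
      simp [Gr])
    (fun k w hw => key V M hV k w hw)
  obtain ⟨V1, h1, h2⟩ := round x y hx hy K V c hc0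
    ((((8 * (K + 1) ^ 3 + 1) * M : ℕ) : ℝ)) hc2 hc1 (M / 2 + 1) (by omega) (by omega)
    (Nat.cast_nonneg _)
  refine ⟨V1, ?_, ?_⟩
  · push_cast at h1 ⊢
    exact h1
  · simpa using h2

end Pool.Agent.helper78.HR
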