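import Pool.Agent.helper78.HR.Defs

/-!
HR project (MP_58257a_co, S08871), row IT: the halving induction, with the one-step statement
(key lemma, duality and one round) as a hypothesis.
-/

set_option autoImplicit false

namespace Pool.Agent.helper78.HR

open Finset

theorem hrIT_log1 (n M N : ℝ) (hn : 0 < n) (hM : 0 < M) (hN : M / 2 ≤ N) :
    Real.log (n / N) ≤ Real.log 2 + Real.log (n / M) := by
  have hN0 : 0 < N := by linarith
  rw [← Real.log_mul (by norm_num) (by positivity)]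
  apply Real.log_le_log (by positivity)
  rw [div_le_iff₀ hN0]
  have h1 : 2 * (n / M) * (M / 2) = n := by field_simp
  have h2 : 2 * (n / M) * (M / 2) ≤ 2 * (n / M) * N :=
    mul_le_mul_of_nonneg_left hN (by positivity)
  linarith

theorem hrIT_log2 (n M M' : ℝ) (hn : 0 < n) (hM' : 0 ≤ M') (hMn : M ≤ n) (hM : 0 < M)
    (hMM : M' ≤ M / 2) :
    M' * (Real.log (n / M') + 3) ≤ M / 2 * (Real.log (n / M) + 4) := by
  have hL : 0 ≤ Real.log (n / M) := Real.log_nonneg ((one_le_div hM).mpr hMn)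
  rcases hM'.eq_or_lt with h0 | h0
  · rw [← h0, zero_mul]
    positivity
  · have e1 : n / M' = n / M * (M / M') := by field_simp
    have e2 : Real.log (n / M') = Real.log (n / M) + Real.log (M / M') := by
      rw [e1, Real.log_mul (by positivity) (by positivity)]
    have e3 : Real.log (M / M') ≤ M / M' - 1 := Real.log_le_sub_one_of_pos (by positivity)
    have e4 : M' * Real.log (M / M') ≤ M - M' := by
      have := mul_le_mul_of_nonneg_left e3 hM'
      have e5 : M' * (M / M' - 1) = M - M' := by field_simp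
      linarith
    have e6 : M' * Real.log (n / M) ≤ M / 2 * Real.log (n / M) :=
      mul_le_mul_of_nonneg_right hMM hL
    rw [e2]
    nlinarith

theorem hrIT_arith (D n M M' N : ℝ) (hD : 1 ≤ D) (hM : 1 ≤ M) (hMn : M ≤ n) (hM' : 0 ≤ M')
    (hMM : M' ≤ M / 2) (hN : M / 2 ≤ N) :
    (4 * (D * M) * (1 + Real.log (n / N)) + 1) + 8 * D * M' * (Real.log (n / M') + 3) ≤
      8 * D * M * (Real.log (n / M) + 3) := by
  have hn : 0 < n := by linarith
  have hM0 : 0 < M := by linarith
  have h1 := hrIT_log1 n M N hn hM0 hN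
  have h2 := hrIT_log2 n M M' hn hM' hMn hM0 hMM
  have hDM : 1 ≤ D * M := by nlinarith
  have h3 : 4 * (D * M) * (1 + Real.log (n / N)) ≤
      4 * (D * M) * (1 + (Real.log 2 + Real.log (n / M))) :=
    mul_le_mul_of_nonneg_left (by linarith) (by positivity)
  have h4 : 8 * D * M' * (Real.log (n / M') + 3) ≤ 8 * D * (M / 2 * (Real.log (n / M) + 4)) := by
    have := mul_le_mul_of_nonneg_left h2 (show 0 ≤ 8 * D by positivity)
    calc 8 * D * M' * (Real.log (n / M') + 3) = 8 * D * (M' * (Real.log (n / M') + 3)) := by ring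
      _ ≤ _ := this
  have h5 : Real.log 2 < 0.6931471808 := Real.log_two_lt_d9
  have h6 : D * M * Real.log 2 ≤ D * M * 0.6931471808 :=
    mul_le_mul_of_nonneg_left h5.le (by positivity)
  nlinarith

theorem hrIT_empty {ι : Type*} [Fintype ι] (x y : ι → ℤ) (K : ℕ) (V : Finset (ℤ × ℤ))
    (hV : NuLE x y K V 0) : Fam x y K V = ∅ := by
  classical
  by_contra hne
  obtain ⟨f, hf⟩ := Finset.nonempty_of_ne_empty hne
  have := hV {f} (by simpa using hf) (by
    intro a ha b hb hab
    rw [Finset.mem_singleton] at ha hb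
    exact absurd (ha.trans hb.symm) hab)
  simp at this

/-- The halving induction, with one step as a hypothesis. -/
theorem hrIT_core {ι : Type*} [Fintype ι] (x y : ι → ℤ) (K : ℕ) (D : ℝ) (hD : 1 ≤ D)
    (hstep : ∀ (M : ℕ) (V : Finset (ℤ × ℤ)), 1 ≤ M → M ≤ Fintype.card ι → NuLE x y K V M →
      ∃ V1 : Finset (ℤ × ℤ),
        (V1.card : ℝ) ≤ 4 * (D * M) *
          (1 + Real.log ((Fintype.card ι : ℝ) / ((M / 2 + 1 : ℕ) : ℝ))) + 1 ∧
        NuLE x y K (V ∪ V1) (M / 2))
    (M : ℕ) : ∀ (_ : M ≤ Fintype.card ι) (V : Finset (ℤ × ℤ)) (_ : NuLE x y K V M),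
    ∃ V' : Finset (ℤ × ℤ),
      (V'.card : ℝ) ≤ 8 * D * M * (Real.log ((Fintype.card ι : ℝ) / M) + 3) ∧
      Fam x y K (V ∪ V') = ∅ := by
  induction M using Nat.strong_induction_on with
  | _ M ih =>
    intro hM V hV
    rcases Nat.eq_zero_or_pos M with h0 | hpos
    · subst h0
      refine ⟨∅, by simp, ?_⟩
      rw [Finset.union_empty]
      exact hrIT_empty x y K V hV
    · obtain ⟨V1, hc1, hV1⟩ := hstep M V hpos hM hV
      have hlt : M / 2 < M := Nat.div_lt_self hpos (by norm_num)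
      obtain ⟨V2, hc2, hV2⟩ := ih (M / 2) hlt (le_trans hlt.le hM) (V ∪ V1) hV1
      refine ⟨V1 ∪ V2, ?_, ?_⟩
      · have hcard : ((V1 ∪ V2).card : ℝ) ≤ (V1.card : ℝ) + (V2.card : ℝ) := by
          exact_mod_cast Finset.card_union_le V1 V2
        have hMr : (1 : ℝ) ≤ (M : ℝ) := by exact_mod_cast hpos
        have hMn : (M : ℝ) ≤ (Fintype.card ι : ℝ) := by exact_mod_cast hM
        have hM'0 : (0 : ℝ) ≤ ((M / 2 : ℕ) : ℝ) := Nat.cast_nonneg _
        have hM'1 : ((M / 2 : ℕ) : ℝ) ≤ (M : ℝ) / 2 := by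
          have : 2 * (M / 2) ≤ M := Nat.mul_div_le M 2
          have h : (2 : ℝ) * ((M / 2 : ℕ) : ℝ) ≤ (M : ℝ) := by exact_mod_cast this
          linarith
        have hN : (M : ℝ) / 2 ≤ ((M / 2 + 1 : ℕ) : ℝ) := by
          have : M ≤ 2 * (M / 2 + 1) := by omega
          have h : (M : ℝ) ≤ 2 * ((M / 2 + 1 : ℕ) : ℝ) := by exact_mod_cast this
          linarith
        have := hrIT_arith D (Fintype.card ι : ℝ) M ((M / 2 : ℕ) : ℝ) ((M / 2 + 1 : ℕ) : ℝ)
          hD hMr hMn hM'0 hM'1 hN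
        linarith
      · rw [← Finset.union_assoc]
        exact hV2

end Pool.Agent.helper78.HR
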